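import Pool.Agent.J4H98.HP.Jobs

set_option autoImplicit false

/-! # Project HP, J15: base change of perfect pairings -/

open Function Module TensorProduct

namespace Pool.Agent.J4H7.HP

theorem t_BC : Pool.Agent.J4H98.HP.S_BC := by
  classical
  intro X Y _ _ _ _ _ _ R _ B hB B' hB'
  let b := Free.chooseBasis ℤ X
  let b' := b.dualBasis.map B.flip.toPerfPair.symm
  have hdual : ∀ i j, B (b i) (b' j) = if i = j then 1 else 0 := by
    intro i j
    have h1 : B.flip (b' j) = b.dualBasis j := by
      show B.flip (B.flip.toPerfPair.symm (b.dualBasis j)) = _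
      exact B.flip.apply_symm_toPerfPair_self _
    have h2 := LinearMap.congr_fun h1 (b i)
    rw [LinearMap.flip_apply] at h2
    rw [h2, Basis.dualBasis_apply_self]
  let c := b.baseChange R
  let c' := b'.baseChange R
  have hc : ∀ i j, B' (c i) (c' j) = if i = j then 1 else 0 := by
    intro i j
    show B' ((b.baseChange R) i) ((b'.baseChange R) j) = _
    rw [Basis.baseChange_apply, Basis.baseChange_apply, hB', hdual]
    split_ifs <;> simp
  have he : B' = ((c.equiv c'.dualBasis (Equiv.refl _)) : (R ⊗[ℤ] X) →ₗ[R] Dual R (R ⊗[ℤ] Y)) := by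
    refine c.ext fun i => ?_
    refine c'.ext fun j => ?_
    rw [hc]
    simp [Finsupp.single_apply, eq_comm]
  have hbij : Bijective B' := by
    rw [he]
    exact (c.equiv c'.dualBasis (Equiv.refl _)).bijective
  exact LinearMap.IsPerfPair.of_bijective B' hbij

end Pool.Agent.J4H7.HP
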