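import Pool.Agent.J4H98.HP.Jobs

set_option autoImplicit false

/-! # Project HP, J12: the core away from `p` -/

open Function Module Finset

namespace Pool.Agent.J4H7.HP

/-- fibres of a surjective additive map have the same size -/
lemma card_fib {A B : Type} [AddCommGroup A] [AddCommGroup B] [Fintype A] [Fintype B] [DecidableEq B]
    (f : A →+ B) (hf : Surjective f) (y : B) : Fintype.card B * #{g | f g = y} = Fintype.card A := by
  have h1 : ∀ x : B, #{g | f g = x} = #{g | f g = y} := fun x =>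
    AddMonoidHom.card_fiber_eq_of_mem_range f (hf x) (hf y)
  have h2 := Finset.card_eq_sum_card_fiberwise (s := (univ : Finset A)) (t := (univ : Finset B)) (f := f)
    (fun _ _ => mem_coe.2 (mem_univ _))
  rw [card_univ] at h2
  rw [h2, Finset.sum_congr rfl (fun x _ => h1 x), Finset.sum_const, smul_eq_mul, card_univ]

theorem t_CORE2L : Pool.Agent.J4H98.HP.S_CORE2L := by
  classical
  intro Fq κ _ _ _ _ _ N _ lam Gf htor hfin hlam hinv h0 hsum hH
  obtain ⟨q, hq⟩ : ∃ q : ℕ, q = Fintype.card Fq := ⟨_, rfl⟩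
  have hq1 : 1 < q := by rw [hq]; exact Fintype.one_lt_card
  have hκ : Fintype.card κ = q ^ 4 := by rw [Module.card_eq_pow_finrank (K := Fq), hfin, hq]
  obtain ⟨x₀, hx₀⟩ : ∃ x, lam x ≠ 0 := by
    by_contra hc
    push Not at hc
    exact hlam (LinearMap.ext hc)
  have hHs : ∀ g : κ, g ≠ 0 → ∑ b, (if lam (g * b) = 1 then Gf b else 0) = 0 := by
    intro g hg
    have h1 := hH g hg 1 one_ne_zero
    rw [finsum_eq_sum_of_fintype] at h1
    refine (Finset.sum_congr rfl fun b _ => ?_).trans h1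
    symm
    exact finsum_eq_if
  funext b₀
  by_cases hb₀ : b₀ = 0
  · rw [hb₀, h0]; rfl
  -- the counting function
  obtain ⟨n, hn⟩ : ∃ n : κ → ℕ, n = fun b => #{g : κ | lam (g * b₀) = 1 ∧ lam (g * b) = 1} := ⟨_, rfl⟩
  have hS : ∑ b, n b • Gf b = 0 := by
    have h1 : ∑ g : κ, (if lam (g * b₀) = 1 then ∑ b, (if lam (g * b) = 1 then Gf b else 0) else 0) = 0 := by
      refine Finset.sum_eq_zero fun g _ => ?_
      split_ifs with h
      · refine hHs g ?_
        rintro rfl
        rw [zero_mul, map_zero] at h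
        exact zero_ne_one h
      · rfl
    rw [← h1]
    have h2 : ∀ g : κ, (if lam (g * b₀) = 1 then ∑ b, (if lam (g * b) = 1 then Gf b else 0) else 0) =
        ∑ b, (if lam (g * b₀) = 1 ∧ lam (g * b) = 1 then Gf b else 0) := by
      intro g
      split_ifs with h
      · refine Finset.sum_congr rfl fun b _ => ?_
        simp [h]
      · refine (Finset.sum_eq_zero fun b _ => ?_).symm
        simp [h]
    rw [Finset.sum_congr rfl fun g _ => h2 g, Finset.sum_comm]
    refine Finset.sum_congr rfl fun b _ => ?_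
    rw [Finset.sum_ite, Finset.sum_const_zero, add_zero, Finset.sum_const, hn]
  -- the functional `g ↦ lam (g b)`
  have hfun : ∀ b : κ, b ≠ 0 → ∃ g, lam (g * b) ≠ 0 := fun b hb =>
    ⟨x₀ * b⁻¹, by rwa [mul_assoc, inv_mul_cancel₀ hb, mul_one]⟩
  have hn1 : q * n b₀ = q ^ 4 := by
    have hs : Surjective ((lam.comp (LinearMap.mulRight Fq b₀)).toAddMonoidHom) := by
      intro y
      obtain ⟨g, hg⟩ := hfun b₀ hb₀
      refine ⟨(y * (lam (g * b₀))⁻¹) • g, ?_⟩
      show lam (((y * (lam (g * b₀))⁻¹) • g) * b₀) = y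
      rw [smul_mul_assoc, map_smul, smul_eq_mul, mul_assoc, inv_mul_cancel₀ hg, mul_one]
    have h1 := card_fib _ hs 1
    rw [hκ, ← hq] at h1
    rw [← h1]
    have h2 : n b₀ = #{g : κ | ((lam.comp (LinearMap.mulRight Fq b₀)).toAddMonoidHom) g = 1} := by
      rw [hn]
      refine congrArg Finset.card (Finset.filter_congr fun g _ => ?_)
      show (lam (g * b₀) = 1 ∧ lam (g * b₀) = 1) ↔ lam (g * b₀) = 1
      exact and_self_iff
    rw [h2]
  have hnc : ∀ c : Fq, c ≠ 1 → n (c • b₀) = 0 := by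
    intro c hc
    rw [hn]
    simp only [card_eq_zero, filter_eq_empty_iff, mem_univ, forall_true_left, not_and]
    intro g hg h
    rw [mul_smul_comm, map_smul, hg, smul_eq_mul, mul_one] at h
    exact hc h
  have hn2 : ∀ b : κ, (∀ c : Fq, c • b₀ ≠ b) → q ^ 2 * n b = q ^ 4 := by
    intro b hb
    obtain ⟨L, hL⟩ : ∃ L : κ →ₗ[Fq] Fq × Fq, L = (lam.comp (LinearMap.mulRight Fq b₀)).prod
      (lam.comp (LinearMap.mulRight Fq b)) := ⟨_, rfl⟩
    have hL' : ∀ g, L g = (lam (g * b₀), lam (g * b)) := fun g => by rw [hL]; rfl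
    have hs : Surjective L := by
      rw [← LinearMap.range_eq_top]
      by_contra hc
      obtain ⟨f, hf0, hf⟩ := Submodule.exists_le_ker_of_lt_top _ (lt_top_iff_ne_top.2 hc)
      obtain ⟨α, hα⟩ : ∃ α, α = f (1, 0) := ⟨_, rfl⟩
      obtain ⟨β, hβ⟩ : ∃ β, β = f (0, 1) := ⟨_, rfl⟩
      have hfe : ∀ x y : Fq, f (x, y) = α * x + β * y := by
        intro x y
        have e : ((x, y) : Fq × Fq) = x • (1, 0) + y • (0, 1) := by simp
        rw [e, map_add, map_smul, map_smul, ← hα, ← hβ, smul_eq_mul, smul_eq_mul]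
        ring
      have h1 : ∀ g : κ, lam (g * (α • b₀ + β • b)) = 0 := by
        intro g
        have h2 : f (L g) = 0 := hf ⟨g, rfl⟩
        rw [hL', hfe] at h2
        rw [mul_add, mul_smul_comm, mul_smul_comm, map_add, map_smul, map_smul, smul_eq_mul, smul_eq_mul]
        exact h2
      have h2 : α • b₀ + β • b = 0 := by
        by_contra h3
        obtain ⟨g, hg⟩ := hfun _ h3
        exact hg (h1 g)
      by_cases hβ0 : β = 0
      · rw [hβ0, zero_smul, add_zero, smul_eq_zero] at h2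
        have hα0 := h2.resolve_right hb₀
        apply hf0
        refine LinearMap.ext fun x => ?_
        rw [show x = (x.1, x.2) from rfl, hfe, hα0, hβ0]
        simp
      · refine hb (-(β⁻¹ * α)) ?_
        have h3 : b = -(β⁻¹ • (α • b₀)) := by
          rw [eq_neg_iff_add_eq_zero, add_comm, ← smul_zero β⁻¹, ← h2, smul_add, smul_smul β⁻¹ β, inv_mul_cancel₀ hβ0,
            one_smul]
        rw [h3, neg_smul, smul_smul]
    have h1 := card_fib L.toAddMonoidHom hs (1, 1)
    rw [hκ, Fintype.card_prod, ← hq] at h1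
    rw [← h1, ← pow_two]
    have h2 : n b = #{g : κ | L.toAddMonoidHom g = (1, 1)} := by
      rw [hn]
      refine congrArg Finset.card (Finset.filter_congr fun g _ => ?_)
      show (lam (g * b₀) = 1 ∧ lam (g * b) = 1) ↔ L g = (1, 1)
      rw [hL', Prod.mk.injEq]
    rw [h2]
  have hq0 : 0 < q := by omega
  have hnb : n b₀ = q ^ 3 := Nat.eq_of_mul_eq_mul_left hq0 (by rw [hn1]; ring)
  have hnb2 : ∀ b : κ, (∀ c : Fq, c • b₀ ≠ b) → n b = q ^ 2 := fun b hb =>
    Nat.eq_of_mul_eq_mul_left (pow_pos hq0 2) (by rw [hn2 b hb]; ring)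
  -- subtract
  have hD : ∑ b, ((n b : ℤ) - (q : ℤ) ^ 2) • Gf b = 0 := by
    have h1 : ∀ b, ((n b : ℤ) - (q : ℤ) ^ 2) • Gf b = n b • Gf b - ((q : ℤ) ^ 2) • Gf b := by
      intro b
      rw [sub_smul, natCast_zsmul]
    rw [Finset.sum_congr rfl fun b _ => h1 b, Finset.sum_sub_distrib, hS, ← Finset.smul_sum, hsum, smul_zero, sub_zero]
  have hinj : Injective fun c : Fq => c • b₀ := smul_left_injective Fq hb₀
  have hE : ∑ c : Fq, ((n (c • b₀) : ℤ) - (q : ℤ) ^ 2) • Gf (c • b₀) = 0 := by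
    rw [← hD]
    refine Fintype.sum_of_injective (fun c : Fq => c • b₀) hinj _ _ (fun b hb => ?_) (fun c => rfl)
    rw [hnb2 b (fun c hc => hb ⟨c, hc⟩)]
    push_cast
    rw [sub_self, zero_smul]
  have hval : ∀ c : Fq, ((n (c • b₀) : ℤ) - (q : ℤ) ^ 2) • Gf (c • b₀) =
      ((if c = 1 then (q : ℤ) ^ 3 else 0) - (if c = 0 then 0 else (q : ℤ) ^ 2)) • Gf b₀ := by
    intro c
    rcases eq_or_ne c 0 with rfl | hc
    · rw [zero_smul, h0, smul_zero]
      simp
    · have h1 : Gf (c • b₀) = Gf b₀ := by rw [Algebra.smul_def]; exact hinv c hc b₀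
      rw [h1, if_neg hc]
      rcases eq_or_ne c 1 with rfl | hc1
      · rw [one_smul, hnb, if_pos rfl]
        push_cast
        rfl
      · rw [hnc c hc1, if_neg hc1]
        push_cast
        rfl
  rw [Finset.sum_congr rfl fun c _ => hval c, ← Finset.sum_smul, Finset.sum_sub_distrib] at hE
  have e1 : ∑ c : Fq, (if c = 1 then (q : ℤ) ^ 3 else 0) = (q : ℤ) ^ 3 := by simp
  have e2 : ∑ c : Fq, (if c = 0 then 0 else (q : ℤ) ^ 2) = ((q : ℤ) - 1) * (q : ℤ) ^ 2 := by
    have h1 : ∀ c : Fq, (if c = 0 then 0 else (q : ℤ) ^ 2) = (q : ℤ) ^ 2 - (if c = 0 then (q : ℤ) ^ 2 else 0) := by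
      intro c
      split_ifs <;> ring
    rw [Finset.sum_congr rfl fun c _ => h1 c, Finset.sum_sub_distrib, Finset.sum_const, card_univ, ← hq]
    simp
    ring
  rw [e1, e2] at hE
  have e3 : (q : ℤ) ^ 3 - ((q : ℤ) - 1) * (q : ℤ) ^ 2 = (q : ℤ) * q := by ring
  rw [e3, mul_smul, natCast_zsmul, natCast_zsmul] at hE
  rw [hq] at hE
  exact htor _ (htor _ hE)

end Pool.Agent.J4H7.HP
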