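import Pool.Agent.J4H98.HP.Jobs

set_option autoImplicit false

/-! # Project HP, J14: linear algebra over `ℤ` -/

open Function Module

namespace Pool.Agent.J4H7.HP

theorem t_PERF : Pool.Agent.J4H98.HP.S_PERF := by
  intro H _ _ _ T c hcomm hsat B hB
  -- powers of `2` dividing an element
  have hΨ0 : ∀ F : H, (∀ θ : T, B θ F = 0) → F = 0 := by
    intro F hF
    by_contra hne
    have hstep : ∀ F : H, (∀ θ : T, B θ F = 0) → ∃ F' : H, F = 2 • F' ∧ ∀ θ : T, B θ F' = 0 := by
      intro F hF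
      obtain ⟨F', hF'⟩ := hsat 2 Nat.prime_two F (fun θ hθ => by
        have := hF ⟨θ, hθ⟩
        rw [hB] at this
        rw [this]
        exact dvd_zero _)
      refine ⟨F', hF', fun θ => ?_⟩
      have h1 := hF θ
      rw [hF', map_nsmul, smul_eq_zero] at h1
      exact h1.resolve_left two_ne_zero
    have hpow : ∀ n : ℕ, ∀ F : H, (∀ θ : T, B θ F = 0) → ∃ F' : H, F = (2 ^ n : ℕ) • F' := by
      intro n
      induction n with
      | zero => exact fun F _ => ⟨F, by simp⟩
      | succ n ih =>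
        intro F hF
        obtain ⟨F1, h1, h2⟩ := hstep F hF
        obtain ⟨F2, h3⟩ := ih F1 h2
        exact ⟨F2, by rw [h1, h3, smul_smul, pow_succ, mul_comm]⟩
    let b := Free.chooseBasis ℤ H
    obtain ⟨i, hi⟩ : ∃ i, b.repr F i ≠ 0 := by
      by_contra hc
      push Not at hc
      exact hne (b.repr.map_eq_zero_iff.1 (Finsupp.ext hc))
    obtain ⟨F', hF'⟩ := hpow (b.repr F i).natAbs F hF
    have h1 : b.repr F i = (2 ^ (b.repr F i).natAbs : ℕ) * b.repr F' i := by
      conv_lhs => rw [hF']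
      rw [map_nsmul, Finsupp.smul_apply, nsmul_eq_mul]
    have h2 : (b.repr F i).natAbs = 2 ^ (b.repr F i).natAbs * (b.repr F' i).natAbs := by
      conv_lhs => rw [h1]
      rw [Int.natAbs_mul, Int.natAbs_natCast]
    have h3 : (b.repr F' i).natAbs ≠ 0 := by
      intro h4
      rw [h4, mul_zero] at h2
      exact hi (Int.natAbs_eq_zero.1 h2)
    have h4 : (b.repr F i).natAbs < 2 ^ (b.repr F i).natAbs := Nat.lt_two_pow_self
    have h5 : 2 ^ (b.repr F i).natAbs ≤ 2 ^ (b.repr F i).natAbs * (b.repr F' i).natAbs :=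
      Nat.le_mul_of_pos_right _ (Nat.pos_of_ne_zero h3)
    omega
  have hΨinj : Injective B.flip := by
    rw [← LinearMap.ker_eq_bot, LinearMap.ker_eq_bot']
    intro F hF
    exact hΨ0 F fun θ => by
      have := LinearMap.congr_fun hF θ
      simpa using this
  have hBinj : Injective B := by
    rw [← LinearMap.ker_eq_bot, LinearMap.ker_eq_bot']
    intro θ hθ
    apply Subtype.ext
    apply LinearMap.ext
    intro F
    show θ.1 F = 0
    refine hΨ0 _ fun θ' => ?_
    rw [hB]
    have h1 : θ'.1 (θ.1 F) = θ.1 (θ'.1 F) := by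
      have := hcomm θ'.1 θ'.2 θ.1 θ.2
      exact LinearMap.congr_fun this F
    rw [h1, ← hB, hθ]
    rfl
  have i1 : Module.Finite ℤ T := Module.Finite.of_injective B hBinj
  have i2 : Module.Free ℤ T := by
    rw [Module.free_iff_isTorsionFree]
    exact Function.Injective.moduleIsTorsionFree B hBinj (fun c x => map_smul _ c x)
  have hr1 : finrank ℤ T ≤ finrank ℤ H := by
    have h1 := LinearMap.finrank_le_finrank_of_injective hBinj
    have h2 := ((Free.chooseBasis ℤ H).toDualEquiv).finrank_eq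
    rw [h2]
    exact h1
  have hr2 : finrank ℤ (T →ₗ[ℤ] ℤ) = finrank ℤ T := (((Free.chooseBasis ℤ T).toDualEquiv).finrank_eq).symm
  have hr3 : finrank ℤ (LinearMap.range B.flip) = finrank ℤ H := LinearMap.finrank_range_of_inj hΨinj
  have hprime : ∀ ℓ : ℕ, ℓ.Prime → ∀ φ : T →ₗ[ℤ] ℤ, (ℓ : ℤ) • φ ∈ LinearMap.range B.flip →
      φ ∈ LinearMap.range B.flip := by
    rintro ℓ hℓ φ ⟨F, hF⟩
    have h0 : ∀ θ : T, B θ F = ℓ * φ θ := fun θ => by
      have := LinearMap.congr_fun hF θ
      simpa using this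
    obtain ⟨F', hF'⟩ := hsat ℓ hℓ F (fun θ hθ => by
      have := h0 ⟨θ, hθ⟩
      rw [hB] at this
      rw [this]
      exact dvd_mul_right _ _)
    refine ⟨F', LinearMap.ext fun θ => ?_⟩
    have h1 := h0 θ
    rw [hF', map_nsmul, nsmul_eq_mul] at h1
    have hℓ0 : (ℓ : ℤ) ≠ 0 := by exact_mod_cast hℓ.ne_zero
    exact mul_left_cancel₀ hℓ0 h1
  have hall : ∀ n : ℕ, n ≠ 0 → ∀ φ : T →ₗ[ℤ] ℤ, (n : ℤ) • φ ∈ LinearMap.range B.flip →
      φ ∈ LinearMap.range B.flip := by
    intro n
    induction n using induction_on_primes with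
    | zero => exact fun h => absurd rfl h
    | one => intro _ φ h; simpa using h
    | prime_mul p a hp ih =>
      intro hn φ h
      refine ih (fun h0 => hn (by rw [h0, mul_zero])) φ (hprime p hp _ ?_)
      rw [smul_smul]
      exact_mod_cast h
  have hsurj : Surjective B.flip := by
    rw [← LinearMap.range_eq_top, eq_top_iff]
    intro φ _
    have hq := (LinearMap.range B.flip).finrank_quotient_add_finrank
    have h0 : finrank ℤ ((T →ₗ[ℤ] ℤ) ⧸ LinearMap.range B.flip) = 0 := by omega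
    rw [Module.finrank_eq_zero_iff] at h0
    obtain ⟨a, ha, h1⟩ := h0 (Submodule.Quotient.mk φ)
    rw [← Submodule.Quotient.mk_smul, Submodule.Quotient.mk_eq_zero] at h1
    refine hall a.natAbs (Int.natAbs_ne_zero.2 ha) φ ?_
    rcases Int.natAbs_eq a with h2 | h2
    · rw [← h2]; exact h1
    · have h3 : ((a.natAbs : ℕ) : ℤ) = -a := by omega
      rw [h3, neg_smul]
      exact neg_mem h1
  have hp : B.flip.IsPerfPair := LinearMap.IsPerfPair.of_bijective B.flip ⟨hΨinj, hsurj⟩
  have := (inferInstance : B.flip.flip.IsPerfPair)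
  rwa [LinearMap.flip_flip] at this

end Pool.Agent.J4H7.HP
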